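import Pool.Agent.Helper34.PU.Goals

/-! Packet CNT of MP_8060f4_co: counting with box norms. -/

set_option autoImplicit false

open Finset
open scoped Classical

namespace Pool.Agent.Helper93.PU

open Pool.Agent.Helper34.PU

theorem avg_comm' {α β : Type} (A : Finset α) (B : Finset β) (f : α → β → ℝ) :
    avg A (fun i => avg B (fun j => f i j)) = avg B (fun j => avg A (fun i => f i j)) := by
  simp only [avg, ← Finset.sum_div]
  rw [Finset.sum_comm, div_div, div_div, mul_comm]

theorem avg_congr {α : Type} {A : Finset α} {f g : α → ℝ} (h : ∀ i ∈ A, f i = g i) :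
    avg A f = avg A g := by
  simp only [avg]; rw [Finset.sum_congr rfl h]

theorem avg_mono {α : Type} {A : Finset α} {f g : α → ℝ} (h : ∀ i ∈ A, f i ≤ g i) :
    avg A f ≤ avg A g := by
  simp only [avg]
  exact div_le_div_of_nonneg_right (Finset.sum_le_sum h) (Nat.cast_nonneg _)

theorem avg_nonneg {α : Type} {A : Finset α} {f : α → ℝ} (h : ∀ i ∈ A, 0 ≤ f i) :
    0 ≤ avg A f := by
  simp only [avg]
  exact div_nonneg (Finset.sum_nonneg h) (Nat.cast_nonneg _)

theorem abs_avg_le {α : Type} (A : Finset α) (f : α → ℝ) :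
    |avg A f| ≤ avg A (fun i => |f i|) := by
  simp only [avg]
  rw [abs_div, Nat.abs_cast]
  exact div_le_div_of_nonneg_right (Finset.abs_sum_le_sum_abs _ _) (Nat.cast_nonneg _)

theorem avg_const {α : Type} {A : Finset α} (hA : A.Nonempty) (c : ℝ) :
    avg A (fun _ => c) = c := by
  have : (A.card : ℝ) ≠ 0 := by
    have := hA.card_pos
    positivity
  simp only [avg, Finset.sum_const, nsmul_eq_mul]
  field_simp

theorem avg_sub {α : Type} (A : Finset α) (f g : α → ℝ) :
    avg A (fun i => f i - g i) = avg A f - avg A g := by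
  simp only [avg, Finset.sum_sub_distrib, sub_div]

theorem avg_mul_left {α : Type} (A : Finset α) (c : ℝ) (f : α → ℝ) :
    avg A (fun i => c * f i) = c * avg A f := by
  simp only [avg, ← Finset.mul_sum, mul_div_assoc]

theorem avg_sq_le {α : Type} (A : Finset α) (f : α → ℝ) :
    (avg A f) ^ 2 ≤ avg A (fun i => f i ^ 2) := by
  rcases A.eq_empty_or_nonempty with h | h
  · subst h; simp [avg]
  · have hc : (0 : ℝ) < A.card := by exact_mod_cast h.card_pos
    have h1 := sq_sum_le_card_mul_sum_sq (s := A) (f := f)
    simp only [avg]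
    rw [div_pow, div_le_div_iff₀ (by positivity) hc]
    have h2 : (∑ i ∈ A, f i) ^ 2 * (A.card : ℝ) ≤ ((A.card : ℝ) * ∑ i ∈ A, f i ^ 2) * A.card :=
      mul_le_mul_of_nonneg_right h1 hc.le
    nlinarith [h2]

theorem avg_sq {α : Type} (A : Finset α) (f : α → ℝ) :
    (avg A f) ^ 2 = avg A (fun i => avg A (fun j => f i * f j)) := by
  have h : (fun i => avg A (fun j => f i * f j)) = fun i => f i * avg A f := by
    funext i; exact avg_mul_left A _ _
  rw [h]
  have h2 : (fun i => f i * avg A f) = fun i => avg A f * f i := by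
    funext i; ring
  rw [h2, avg_mul_left, sq]

theorem box4_swap {α : Type} (A B : Finset α) (F : α → α → ℝ) :
    avg B (fun z => avg B (fun z' => (avg A (fun y => F y z * F y z')) ^ 2)) = box4 A B F := by
  unfold box4
  have e1 : ∀ z z', (avg A (fun y => F y z * F y z')) ^ 2 =
      avg A (fun i => avg A (fun i' => (F i z * F i z') * (F i' z * F i' z'))) :=
    fun z z' => avg_sq A _
  have e2 : ∀ i i', (avg B (fun j => F i j * F i' j)) ^ 2 =
      avg B (fun j => avg B (fun j' => (F i j * F i' j) * (F i j' * F i' j'))) :=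
    fun i i' => avg_sq B _
  simp only [e1, e2]
  -- move the averages over `A` outside
  have s1 : ∀ z, avg B (fun z' => avg A (fun i => avg A (fun i' =>
      (F i z * F i z') * (F i' z * F i' z')))) =
      avg A (fun i => avg A (fun i' => avg B (fun z' =>
      (F i z * F i z') * (F i' z * F i' z')))) := by
    intro z
    rw [avg_comm' B A]
    refine avg_congr fun i _ => ?_
    rw [avg_comm' B A]
  simp only [s1]
  rw [avg_comm' B A]
  refine avg_congr fun i _ => ?_
  rw [avg_comm' B A]
  refine avg_congr fun i' _ => ?_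
  refine avg_congr fun z _ => ?_
  refine avg_congr fun z' _ => ?_
  ring

theorem box4_nonneg {α : Type} (A B : Finset α) (F : α → α → ℝ) : 0 ≤ box4 A B F :=
  avg_nonneg fun _ _ => avg_nonneg fun _ _ => sq_nonneg _

/-- Generalised von Neumann inequality. -/
theorem gvn {α : Type} (A B : Finset α) (F : α → α → ℝ) (u v : α → ℝ)
    (hu : ∀ y, |u y| ≤ 1) (hv : ∀ z, |v z| ≤ 1) :
    |avg A (fun y => avg B (fun z => u y * v z * F y z))| ≤ (box4 A B F) ^ ((1 : ℝ) / 4) := by
  set S := avg A (fun y => avg B (fun z => u y * v z * F y z)) with hS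
  have h1 : S ^ 2 ≤ avg A (fun y => (avg B (fun z => v z * F y z)) ^ 2) := by
    refine (avg_sq_le A _).trans (avg_mono fun y _ => ?_)
    have : avg B (fun z => u y * v z * F y z) = u y * avg B (fun z => v z * F y z) := by
      rw [← avg_mul_left]; exact avg_congr fun z _ => by ring
    rw [this, mul_pow]
    have hu2 : u y ^ 2 ≤ 1 := by
      have := hu y
      rw [← sq_abs]; nlinarith [abs_nonneg (u y)]
    nlinarith [sq_nonneg (avg B (fun z => v z * F y z))]
  have h2 : avg A (fun y => (avg B (fun z => v z * F y z)) ^ 2) =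
      avg B (fun z => avg B (fun z' => v z * v z' * avg A (fun y => F y z * F y z'))) := by
    have e : ∀ y, (avg B (fun z => v z * F y z)) ^ 2 =
        avg B (fun z => avg B (fun z' => (v z * F y z) * (v z' * F y z'))) := fun y => avg_sq B _
    simp only [e]
    rw [avg_comm' A B]
    refine avg_congr fun z _ => ?_
    rw [avg_comm' A B]
    refine avg_congr fun z' _ => ?_
    rw [← avg_mul_left]
    exact avg_congr fun y _ => by ring
  have h3 : (avg B (fun z => avg B (fun z' => v z * v z' * avg A (fun y => F y z * F y z')))) ^ 2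
      ≤ box4 A B F := by
    rw [← box4_swap]
    refine (avg_sq_le B _).trans (avg_mono fun z _ => ?_)
    refine (avg_sq_le B _).trans (avg_mono fun z' _ => ?_)
    rw [mul_pow]
    have hz : v z ^ 2 ≤ 1 := by
      have := hv z
      rw [← sq_abs]; nlinarith [abs_nonneg (v z)]
    have hz' : v z' ^ 2 ≤ 1 := by
      have := hv z'
      rw [← sq_abs]; nlinarith [abs_nonneg (v z')]
    have hp : (v z * v z') ^ 2 ≤ 1 := by
      rw [mul_pow]; nlinarith [sq_nonneg (v z), sq_nonneg (v z')]
    nlinarith [sq_nonneg (avg A (fun y => F y z * F y z'))]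
  have h4 : (|S|) ^ 4 ≤ box4 A B F := by
    have e : (|S|) ^ 4 = (S ^ 2) ^ 2 := by
      rw [← pow_mul]
      have : (|S|) ^ 4 = (|S| ^ 2) ^ 2 := by ring
      rw [this, sq_abs, ← pow_mul]
    rw [e]
    refine (pow_le_pow_left₀ (sq_nonneg _) h1 2).trans ?_
    rw [h2]; exact h3
  have h5 : |S| = ((|S|) ^ 4) ^ ((1 : ℝ) / 4) := by
    rw [← Real.rpow_natCast, ← Real.rpow_mul (abs_nonneg _)]
    norm_num
  rw [h5]
  exact Real.rpow_le_rpow (by positivity) h4 (by norm_num)

/-- Resampling of one coordinate. -/
theorem avg_resample {ι α : Type} [Fintype ι] (A : ι → Finset α) (hA : ∀ i, (A i).Nonempty)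
    (i : ι) (Ψ : (ι → α) → ℝ) :
    avg (Fintype.piFinset A) Ψ =
      avg (Fintype.piFinset A) (fun y => avg (A i) (fun u => Ψ (Function.update y i u))) := by
  have hc : ((A i).card : ℝ) ≠ 0 := by
    have := (hA i).card_pos
    positivity
  have key : ∑ y ∈ Fintype.piFinset A, ∑ u ∈ A i, Ψ (Function.update y i u) =
      ∑ y ∈ Fintype.piFinset A, ∑ _u ∈ A i, Ψ y := by
    rw [← Finset.sum_product', ← Finset.sum_product']
    refine Finset.sum_nbij' (fun p => (Function.update p.1 i p.2, p.1 i))
      (fun p => (Function.update p.1 i p.2, p.1 i)) ?_ ?_ ?_ ?_ ?_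
    · intro p hp
      rw [Finset.mem_product] at hp ⊢
      refine ⟨?_, Fintype.mem_piFinset.1 hp.1 i⟩
      rw [Fintype.mem_piFinset]
      intro j
      by_cases hj : j = i
      · subst hj; simpa using hp.2
      · simpa [Function.update_of_ne hj] using Fintype.mem_piFinset.1 hp.1 j
    · intro p hp
      rw [Finset.mem_product] at hp ⊢
      refine ⟨?_, Fintype.mem_piFinset.1 hp.1 i⟩
      rw [Fintype.mem_piFinset]
      intro j
      by_cases hj : j = i
      · subst hj; simpa using hp.2
      · simpa [Function.update_of_ne hj] using Fintype.mem_piFinset.1 hp.1 j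
    · intro p _
      simp
    · intro p _
      simp
    · intro p _
      simp
  simp only [avg]
  rw [← Finset.sum_div, key]
  simp only [Finset.sum_const, nsmul_eq_mul, ← Finset.mul_sum]
  field_simp

/-- One step of the telescoping. -/
theorem step {ι α : Type} [Fintype ι] (A : ι → Finset α) (hA : ∀ i, (A i).Nonempty)
    (P : Finset (ι × ι)) (e0 : ι × ι) (h0 : e0.1 ≠ e0.2)
    (hP : ∀ e ∈ P, e ≠ e0 ∧ e ≠ (e0.2, e0.1) ∧ e.1 ≠ e.2)
    (c : ι × ι → α → α → ℝ) (hc : ∀ e y z, 0 ≤ c e y z ∧ c e y z ≤ 1) (F : α → α → ℝ) :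
    |avg (Fintype.piFinset A) (fun y => (∏ e ∈ P, c e (y e.1) (y e.2)) * F (y e0.1) (y e0.2))| ≤
      (box4 (A e0.1) (A e0.2) F) ^ ((1 : ℝ) / 4) := by
  obtain ⟨i0, i1⟩ := e0
  simp only at h0 hP ⊢
  have hne : (Fintype.piFinset A).Nonempty := Fintype.piFinset_nonempty.2 hA
  rw [avg_resample A hA i0, avg_resample A hA i1]
  refine (abs_avg_le _ _).trans ?_
  refine le_trans (avg_mono (g := fun _ => (box4 (A i0) (A i1) F) ^ ((1 : ℝ) / 4)) ?_)
    (avg_const hne _).le
  intro y _
  rw [avg_comm' (A i1) (A i0)]
  set u : α → ℝ := fun s => ∏ e ∈ P.filter (fun e => e.1 = i0 ∨ e.2 = i0),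
    c e (Function.update y i0 s e.1) (Function.update y i0 s e.2) with hu
  set v : α → ℝ := fun t => ∏ e ∈ P.filter (fun e => ¬ (e.1 = i0 ∨ e.2 = i0)),
    c e (Function.update y i1 t e.1) (Function.update y i1 t e.2) with hv
  have hprod01 : ∀ (Q : Finset (ι × ι)) (g : ι × ι → ℝ), (∀ e, 0 ≤ g e ∧ g e ≤ 1) →
      |∏ e ∈ Q, g e| ≤ 1 := by
    intro Q g hg
    rw [abs_of_nonneg (Finset.prod_nonneg fun e _ => (hg e).1)]
    exact Finset.prod_le_one (fun e _ => (hg e).1) (fun e _ => (hg e).2)
  have e : ∀ s t, (∏ e ∈ P, c e (Function.update (Function.update y i1 t) i0 s e.1)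
      (Function.update (Function.update y i1 t) i0 s e.2)) *
      F (Function.update (Function.update y i1 t) i0 s i0)
        (Function.update (Function.update y i1 t) i0 s i1) = u s * v t * F s t := by
    intro s t
    rw [Function.update_self, Function.update_of_ne (Ne.symm h0), Function.update_self]
    congr 1
    rw [← Finset.prod_filter_mul_prod_filter_not P (fun e => e.1 = i0 ∨ e.2 = i0)]
    congr 1
    · refine Finset.prod_congr rfl fun e he => ?_
      rw [Finset.mem_filter] at he
      obtain ⟨heP, he0⟩ := he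
      obtain ⟨k1, k2, k3⟩ := hP e heP
      have hx : ∀ j, j ≠ i1 → Function.update (Function.update y i1 t) i0 s j =
          Function.update y i0 s j := by
        intro j hj
        by_cases hj0 : j = i0
        · subst hj0; simp
        · rw [Function.update_of_ne hj0, Function.update_of_ne hj0, Function.update_of_ne hj]
      have a1 : e.1 ≠ i1 := by
        intro h
        rcases he0 with h' | h'
        · exact h0 (h'.symm.trans h)
        · exact k2 (Prod.ext h h')
      have a2 : e.2 ≠ i1 := by
        intro h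
        rcases he0 with h' | h'
        · exact k1 (Prod.ext h' h)
        · exact h0 (h'.symm.trans h)
      rw [hx _ a1, hx _ a2]
    · refine Finset.prod_congr rfl fun e he => ?_
      rw [Finset.mem_filter, not_or] at he
      obtain ⟨heP, he0, he1⟩ := he
      rw [Function.update_of_ne he0, Function.update_of_ne he1]
  have e' : avg (A i0) (fun s => avg (A i1) (fun t =>
      (∏ e ∈ P, c e (Function.update (Function.update y i1 t) i0 s e.1)
      (Function.update (Function.update y i1 t) i0 s e.2)) *
      F (Function.update (Function.update y i1 t) i0 s i0)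
        (Function.update (Function.update y i1 t) i0 s i1))) =
      avg (A i0) (fun s => avg (A i1) (fun t => u s * v t * F s t)) :=
    avg_congr fun s _ => avg_congr fun t _ => e s t
  rw [e']
  refine gvn (A i0) (A i1) F u v (fun s => ?_) (fun t => ?_)
  · exact hprod01 _ _ fun e => hc _ _ _
  · exact hprod01 _ _ fun e => hc _ _ _

theorem cnt : CntStmt := by
  intro ι α _ A P a b hA hP hab
  have main : ∀ Q : Finset (ι × ι), Q ⊆ P →
      |avg (Fintype.piFinset A) (fun y => ∏ e ∈ P, a e (y e.1) (y e.2)) -
        avg (Fintype.piFinset A) (fun y => ∏ e ∈ P,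
          (if e ∈ Q then b e (y e.1) (y e.2) else a e (y e.1) (y e.2)))| ≤
      ∑ e ∈ Q, (box4 (A e.1) (A e.2) (fun y z => a e y z - b e y z)) ^ ((1 : ℝ) / 4) := by
    intro Q
    induction Q using Finset.induction_on with
    | empty => intro _; simp
    | insert e0 Q he0 ih =>
      intro hQ
      have hQP : Q ⊆ P := fun e he => hQ (Finset.mem_insert_of_mem he)
      have he0P : e0 ∈ P := hQ (Finset.mem_insert_self _ _)
      rw [Finset.sum_insert he0]
      set c : ι × ι → α → α → ℝ := fun e y z => if e ∈ Q then b e y z else a e y z with hcdef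
      have hc01 : ∀ e y z, 0 ≤ c e y z ∧ c e y z ≤ 1 := by
        intro e y z
        obtain ⟨k1, k2, k3, k4⟩ := hab e y z
        by_cases he : e ∈ Q
        · simp only [hcdef, he, if_true]; exact ⟨k3, k4⟩
        · simp only [hcdef, he, if_false]; exact ⟨k1, k2⟩
      have hst := step A hA (P.erase e0) e0 (hP e0 he0P).1 (fun e he => by
        rw [Finset.mem_erase] at he
        refine ⟨he.1, ?_, (hP e he.2).1⟩
        intro h
        exact (hP e0 he0P).2 (h ▸ he.2)) c hc01 (fun y z => a e0 y z - b e0 y z)
      have hdiff : avg (Fintype.piFinset A) (fun y => ∏ e ∈ P,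
          (if e ∈ Q then b e (y e.1) (y e.2) else a e (y e.1) (y e.2))) -
          avg (Fintype.piFinset A) (fun y => ∏ e ∈ P,
          (if e ∈ insert e0 Q then b e (y e.1) (y e.2) else a e (y e.1) (y e.2))) =
          avg (Fintype.piFinset A) (fun y => (∏ e ∈ P.erase e0, c e (y e.1) (y e.2)) *
            (a e0 (y e0.1) (y e0.2) - b e0 (y e0.1) (y e0.2))) := by
        rw [← avg_sub]
        refine avg_congr fun y _ => ?_
        rw [← Finset.mul_prod_erase P _ he0P, ← Finset.mul_prod_erase P
          (fun e => if e ∈ insert e0 Q then b e (y e.1) (y e.2) else a e (y e.1) (y e.2)) he0P]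
        have e1 : ∏ e ∈ P.erase e0, (if e ∈ insert e0 Q then b e (y e.1) (y e.2)
            else a e (y e.1) (y e.2)) = ∏ e ∈ P.erase e0, c e (y e.1) (y e.2) := by
          refine Finset.prod_congr rfl fun e he => ?_
          have hne : e ≠ e0 := (Finset.mem_erase.1 he).1
          simp only [hcdef, Finset.mem_insert, hne, false_or]
        have e2 : ∏ e ∈ P.erase e0, (if e ∈ Q then b e (y e.1) (y e.2)
            else a e (y e.1) (y e.2)) = ∏ e ∈ P.erase e0, c e (y e.1) (y e.2) := rfl
        rw [e1, e2]
        simp only [he0, if_false, Finset.mem_insert_self, if_true]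
        ring
      have hih := ih hQP
      calc _ = |(avg (Fintype.piFinset A) (fun y => ∏ e ∈ P, a e (y e.1) (y e.2)) -
            avg (Fintype.piFinset A) (fun y => ∏ e ∈ P,
              (if e ∈ Q then b e (y e.1) (y e.2) else a e (y e.1) (y e.2)))) +
            (avg (Fintype.piFinset A) (fun y => ∏ e ∈ P,
              (if e ∈ Q then b e (y e.1) (y e.2) else a e (y e.1) (y e.2))) -
            avg (Fintype.piFinset A) (fun y => ∏ e ∈ P,
              (if e ∈ insert e0 Q then b e (y e.1) (y e.2) else a e (y e.1) (y e.2))))| := by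
            congr 1; ring
        _ ≤ _ := by
            refine (abs_add_le _ _).trans ?_
            rw [add_comm]
            refine add_le_add ?_ hih
            rw [hdiff]
            exact hst
  have h := main P (Finset.Subset.refl _)
  have e : (fun y : ι → α => ∏ e ∈ P,
      (if e ∈ P then b e (y e.1) (y e.2) else a e (y e.1) (y e.2))) =
      fun y => ∏ e ∈ P, b e (y e.1) (y e.2) := by
    funext y
    exact Finset.prod_congr rfl fun e he => by simp [he]
  rw [e] at h
  exact h

end Pool.Agent.Helper93.PU
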